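import Pool.Agent.W845.PM.Base

set_option autoImplicit false
open scoped Classical
open Filter Topology MeasureTheory ProbabilityTheory
open scoped ENNReal NNReal BigOperators

namespace Pool.Agent.W293.PM

open Pool.Agent.W845.PM

theorem T_two_succ (k : ℕ) (ω : Om) : T gA 1 (2 * (k + 1)) ω =
    (1 + ∑ i ∈ Finset.range (ω []),
      (∑ j ∈ Finset.range ((sh i ω) []), T gA 1 (2 * k) (sh j (sh i ω)))⁻¹)⁻¹ := by
  have e : 2 * (k + 1) = (2 * k + 1) + 1 := by ring
  rw [e]
  have h1 : ¬ Even (2 * k + 1) := by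
    rw [Nat.not_even_iff_odd]
    exact odd_two_mul_add_one k
  have h2 : Even (2 * k) := even_two_mul k
  simp only [T, gA, if_neg h1, if_pos h2]

theorem T_anti (k : ℕ) : ∀ ω : Om, T gA 1 (2 * (k + 1)) ω ≤ T gA 1 (2 * k) ω := by
  induction k with
  | zero =>
    intro ω
    rw [T_two_succ]
    have : T gA 1 (2 * 0) ω = 1 := rfl
    rw [this]
    exact ENNReal.inv_le_one.mpr le_self_add
  | succ k ih =>
    intro ω
    rw [T_two_succ (k + 1), T_two_succ k]
    refine ENNReal.inv_le_inv' ?_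
    refine add_le_add le_rfl (Finset.sum_le_sum fun i _ => ?_)
    refine ENNReal.inv_le_inv' ?_
    exact Finset.sum_le_sum fun j _ => ih _

theorem fix : S_TM → S_FIX := by
  intro hTM
  set y : ℕ → Om → ℝ≥0∞ := fun k => T gA 1 (2 * k) with hy
  have hym : ∀ k, Measurable (y k) := fun k =>
    hTM.2 gA 1 (fun j => (continuous_gA j).measurable) (2 * k)
  have hanti : ∀ ω, Antitone (fun k => y k ω) := fun ω =>
    antitone_nat_of_succ_le fun k => T_anti k ω
  set x : Om → ℝ≥0∞ := fun ω => ⨅ k, y k ω with hx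
  have hlim : ∀ ω, Tendsto (fun k => y k ω) atTop (𝓝 (x ω)) := fun ω =>
    tendsto_atTop_iInf (hanti ω)
  have hx1 : ∀ ω, x ω ≤ 1 := fun ω => iInf_le (fun k => y k ω) 0
  have hy1 : ∀ k ω, y k ω ≤ 1 := fun k ω => hanti ω (Nat.zero_le k)
  have hxm : Measurable x := Measurable.iInf hym
  refine ⟨x, ⟨hxm, hx1, ?_⟩, ?_⟩
  · intro ω
    have h1 : Tendsto (fun k => y (k + 1) ω) atTop (𝓝 (x ω)) :=
      (tendsto_add_atTop_iff_nat 1).mpr (hlim ω)
    have h2 : Tendsto (fun k => y (k + 1) ω) atTop (𝓝 ((1 + ∑ i ∈ Finset.range (ω []),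
        (∑ j ∈ Finset.range ((sh i ω) []), x (sh j (sh i ω)))⁻¹)⁻¹)) := by
      have e : (fun k => y (k + 1) ω) = fun k => (1 + ∑ i ∈ Finset.range (ω []),
          (∑ j ∈ Finset.range ((sh i ω) []), y k (sh j (sh i ω)))⁻¹)⁻¹ := by
        funext k
        exact T_two_succ k ω
      rw [e]
      refine Tendsto.inv (Tendsto.add tendsto_const_nhds ?_)
      refine tendsto_finset_sum _ fun i _ => Tendsto.inv ?_
      exact tendsto_finset_sum _ fun j _ => hlim _
    exact tendsto_nhds_unique h1 h2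
  · intro c
    refine tendsto_integral_of_dominated_convergence (fun _ => (1 : ℝ)) ?_ ?_ ?_ ?_
    · intro k
      exact (hym k).ennreal_toReal.aestronglyMeasurable
    · exact integrable_const _
    · intro k
      refine ae_of_all _ fun ω => ?_
      rw [Real.norm_eq_abs, abs_of_nonneg ENNReal.toReal_nonneg]
      have := ENNReal.toReal_mono ENNReal.one_ne_top (hy1 k ω)
      simpa using this
    · refine ae_of_all _ fun ω => ?_
      exact (ENNReal.tendsto_toReal (ne_top_of_le_ne_top ENNReal.one_ne_top (hx1 ω))).comp (hlim ω)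

end Pool.Agent.W293.PM
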