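import Pool.Agent.W845.PM.Base

set_option autoImplicit false
open scoped Classical
open Filter Topology MeasureTheory ProbabilityTheory
open scoped ENNReal NNReal BigOperators

namespace Pool.Agent.W293.PM

open Pool.Agent.W845.PM

/-- the one variable lemma -/
theorem one_var {ι : Type} (s : Finset ι) (w X : ι → ℝ) (d lam : ℝ) (hd : 0 < d)
    (hw : ∀ i ∈ s, 0 ≤ w i) (h1 : ∑ i ∈ s, w i = 1) (h0 : ∑ i ∈ s, w i * X i = 0)
    (hX : ∀ i ∈ s, |X i| ≤ d) :
    ∑ i ∈ s, w i * Real.exp (lam * X i) ≤ Real.exp (lam ^ 2 * d ^ 2 / 2) := by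
  have h2 : ∀ i ∈ s, w i * Real.exp (lam * X i) ≤
      w i * Real.cosh (lam * d) + (w i * X i) * (Real.sinh (lam * d) / d) := by
    intro i hi
    have h3 := Real.exp_mul_le_cosh_add_mul_sinh (t := X i / d)
      (by rw [abs_div, abs_of_pos hd, div_le_one hd]; exact hX i hi) (lam * d)
    have e : X i / d * (lam * d) = lam * X i := by field_simp
    rw [e] at h3
    have h4 := mul_le_mul_of_nonneg_left h3 (hw i hi)
    refine h4.trans (le_of_eq ?_)
    field_simp
  refine (Finset.sum_le_sum h2).trans ?_
  rw [Finset.sum_add_distrib, ← Finset.sum_mul, ← Finset.sum_mul, h1, h0, zero_mul, add_zero,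
    one_mul]
  refine (Real.cosh_le_exp_half_sq _).trans (le_of_eq ?_)
  congr 1
  ring

theorem mgf (hE : S_EXT) (hO : S_ONE) (p d : ℝ) (hp0 : 0 ≤ p) (hp1 : p ≤ 1) (hd : 0 < d) :
    ∀ (n : ℕ) (F : SimpleGraph (Fin n) → ℝ),
    (∀ (G G' : SimpleGraph (Fin n)) (v : Fin n), del G v = del G' v → |F G - F G'| ≤ d) →
    ∀ lam : ℝ, EG n p (fun G => Real.exp (lam * (F G - EG n p F))) ≤
      Real.exp (lam ^ 2 * d ^ 2 * n / 2) := by
  intro n
  induction n with
  | zero =>
    intro F _ lam
    have hsub : ∀ G : SimpleGraph (Fin 0), G = ⊥ := by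
      intro G
      ext a
      exact a.elim0
    have hF : EG 0 p F = F ⊥ := by
      have e : F = fun _ => F ⊥ := by
        funext G
        rw [hsub G]
      conv_lhs => rw [e]
      exact EG_const hO 0 p _
    have e : (fun G => Real.exp (lam * (F G - EG 0 p F))) = fun _ : SimpleGraph (Fin 0) => (1 : ℝ) := by
      funext G
      rw [hF, hsub G, sub_self, mul_zero, Real.exp_zero]
    rw [e, (hO 0 p).1]
    simp
  | succ n ih =>
    intro F hF lam
    set Fb : SimpleGraph (Fin n) → ℝ := fun K => ∑ N : Finset (Fin n), ws n p N * F (ext K N)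
      with hFb
    have hmean : EG (n + 1) p F = EG n p Fb := by
      rw [hE n p F, hFb, EG_sum]
      refine Finset.sum_congr rfl fun N _ => ?_
      rw [EG_mul_left]
    have hw1 : ∑ N : Finset (Fin n), ws n p N = 1 := (hO n p).2
    have hw0 : ∀ N : Finset (Fin n), 0 ≤ ws n p N := ws_nonneg hp0 hp1
    have hdiff : ∀ (K : SimpleGraph (Fin n)) (N N' : Finset (Fin n)),
        |F (ext K N) - F (ext K N')| ≤ d := by
      intro K N N'
      refine hF _ _ (Fin.last n) ?_
      rw [del_ext_last, del_ext_last]
    have hdev : ∀ (K : SimpleGraph (Fin n)) (N : Finset (Fin n)), |F (ext K N) - Fb K| ≤ d := by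
      intro K N
      have e : F (ext K N) - Fb K =
          ∑ N' : Finset (Fin n), ws n p N' * (F (ext K N) - F (ext K N')) := by
        simp only [mul_sub, Finset.sum_sub_distrib, ← Finset.sum_mul, hw1, one_mul, hFb]
      rw [e]
      refine (Finset.abs_sum_le_sum_abs _ _).trans ?_
      have : ∀ N' ∈ (Finset.univ : Finset (Finset (Fin n))),
          |ws n p N' * (F (ext K N) - F (ext K N'))| ≤ ws n p N' * d := by
        intro N' _
        rw [abs_mul, abs_of_nonneg (hw0 N')]
        exact mul_le_mul_of_nonneg_left (hdiff K N N') (hw0 N')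
      refine (Finset.sum_le_sum this).trans ?_
      rw [← Finset.sum_mul, hw1, one_mul]
    have hFbl : ∀ (K K' : SimpleGraph (Fin n)) (v : Fin n), del K v = del K' v →
        |Fb K - Fb K'| ≤ d := by
      intro K K' v hv
      have hd1 : ∀ N : Finset (Fin n), |F (ext K N) - F (ext K' N)| ≤ d := by
        intro N
        refine hF _ _ (Fin.castSucc v) ?_
        have h1 : ∀ (Q : SimpleGraph (Fin n)), ∀ a b : Fin (n + 1),
            (del (ext Q N) (Fin.castSucc v)).Adj a b ↔
            ((∃ x y : Fin n, a = Fin.castSucc x ∧ b = Fin.castSucc y ∧ (del Q v).Adj x y) ∨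
            ((a = Fin.last n ∧ ∃ y ∈ N, b = Fin.castSucc y) ∨
              (b = Fin.last n ∧ ∃ x ∈ N, a = Fin.castSucc x)) ∧ a ≠ Fin.castSucc v ∧
                b ≠ Fin.castSucc v) := by
          intro Q a b
          constructor
          · rintro ⟨h, ha, hb⟩
            rcases h with ⟨x, y, hx, hy, h⟩ | h
            · exact Or.inl ⟨x, y, hx, hy, h, fun e => ha (by rw [hx, e]),
                fun e => hb (by rw [hy, e])⟩
            · exact Or.inr ⟨h, ha, hb⟩
          · rintro (⟨x, y, hx, hy, h, h2, h3⟩ | ⟨h, ha, hb⟩)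
            · exact ⟨Or.inl ⟨x, y, hx, hy, h⟩,
                fun e => h2 (Fin.castSucc_injective n (hx.symm.trans e)),
                fun e => h3 (Fin.castSucc_injective n (hy.symm.trans e))⟩
            · exact ⟨Or.inr h, ha, hb⟩
        ext a b
        rw [h1 K a b, h1 K' a b, hv]
      have e : Fb K - Fb K' = ∑ N : Finset (Fin n), ws n p N * (F (ext K N) - F (ext K' N)) := by
        simp only [mul_sub, Finset.sum_sub_distrib, hFb]
      rw [e]
      refine (Finset.abs_sum_le_sum_abs _ _).trans ?_
      have : ∀ N ∈ (Finset.univ : Finset (Finset (Fin n))),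
          |ws n p N * (F (ext K N) - F (ext K' N))| ≤ ws n p N * d := by
        intro N _
        rw [abs_mul, abs_of_nonneg (hw0 N)]
        exact mul_le_mul_of_nonneg_left (hd1 N) (hw0 N)
      refine (Finset.sum_le_sum this).trans ?_
      rw [← Finset.sum_mul, hw1, one_mul]
    have hih := ih Fb hFbl lam
    rw [hE n p (fun G => Real.exp (lam * (F G - EG (n + 1) p F)))]
    rw [← hmean] at hih
    set m := EG (n + 1) p F with hm
    have e1 : ∑ N : Finset (Fin n), ws n p N *
        EG n p (fun K => Real.exp (lam * (F (ext K N) - m))) =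
        EG n p (fun K => ∑ N : Finset (Fin n), ws n p N *
          Real.exp (lam * (F (ext K N) - m))) := by
      rw [EG_sum]
      refine Finset.sum_congr rfl fun N _ => ?_
      rw [EG_mul_left]
    have e1' : (∑ N : Finset (Fin n), ws n p N *
        EG n p (fun K => Real.exp (lam * (F (ext K N) - m)))) ≤
        EG n p (fun K => Real.exp (lam * (Fb K - m)) * Real.exp (lam ^ 2 * d ^ 2 / 2)) := by
      rw [e1]
      refine EG_mono hp0 hp1 fun K => ?_
      have h3 : ∑ N : Finset (Fin n), ws n p N * Real.exp (lam * (F (ext K N) - m)) =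
          Real.exp (lam * (Fb K - m)) *
            ∑ N : Finset (Fin n), ws n p N * Real.exp (lam * (F (ext K N) - Fb K)) := by
        rw [Finset.mul_sum]
        refine Finset.sum_congr rfl fun N _ => ?_
        have : lam * (F (ext K N) - m) = lam * (Fb K - m) + lam * (F (ext K N) - Fb K) := by ring
        rw [this, Real.exp_add]
        ring
      rw [h3]
      refine mul_le_mul_of_nonneg_left ?_ (Real.exp_nonneg _)
      refine one_var Finset.univ _ _ d lam hd (fun N _ => hw0 N) hw1 ?_ (fun N _ => hdev K N)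
      simp only [mul_sub, Finset.sum_sub_distrib, ← Finset.sum_mul, hw1, one_mul]
      rw [hFb, sub_self]
    refine e1'.trans ?_
    rw [EG_mul_right]
    refine (mul_le_mul_of_nonneg_right hih (Real.exp_nonneg _)).trans (le_of_eq ?_)
    rw [← Real.exp_add]
    congr 1
    push_cast
    ring

theorem mcd : S_EXT → S_ONE → S_MCD := by
  intro hE hO n p d s F hn hp0 hp1 hd hs hF
  have hn0 : (0 : ℝ) < n := by exact_mod_cast hn
  set lam := s / (n * d ^ 2) with hlam
  have hlam0 : 0 ≤ lam := by positivity
  have h1 := mgf hE hO p d hp0 hp1 hd n F hF lam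
  have h2 : EG n p (fun G => if EG n p F + s ≤ F G then (1 : ℝ) else 0) ≤
      EG n p (fun G => Real.exp (-(lam * s)) * Real.exp (lam * (F G - EG n p F))) := by
    refine EG_mono hp0 hp1 fun G => ?_
    rw [← Real.exp_add]
    split_ifs with h
    · have : 0 ≤ -(lam * s) + lam * (F G - EG n p F) := by
        have : 0 ≤ lam * (F G - EG n p F - s) := mul_nonneg hlam0 (by linarith)
        linarith
      exact Real.one_le_exp this
    · exact Real.exp_nonneg _
  refine h2.trans ?_
  rw [EG_mul_left]
  refine (mul_le_mul_of_nonneg_left h1 (Real.exp_nonneg _)).trans (le_of_eq ?_)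
  rw [← Real.exp_add]
  congr 1
  rw [hlam]
  field_simp
  ring

end Pool.Agent.W293.PM
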