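import Pool.Agent.W845.PM.Base

set_option autoImplicit false
open scoped Classical
open Filter Topology MeasureTheory ProbabilityTheory
open scoped ENNReal NNReal BigOperators

namespace Pool.Agent.W293.PM

open Pool.Agent.W845.PM

/-- the increasing injection of `ℕ` missing `i` -/
def sg (i k : ℕ) : ℕ := if k < i then k else k + 1

theorem sg_inj (i : ℕ) : Function.Injective (sg i) := by
  intro a b h
  unfold sg at h
  split_ifs at h <;> omega

theorem mem_range_sg (i j : ℕ) : j ∈ Set.range (sg i) ↔ j ≠ i := by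
  constructor
  · rintro ⟨k, rfl⟩
    unfold sg
    split_ifs <;> omega
  · intro h
    rcases lt_or_gt_of_ne h with h | h
    · exact ⟨j, by simp [sg, h]⟩
    · refine ⟨j - 1, ?_⟩
      unfold sg
      split_ifs <;> omega

/-- insertion of a coordinate -/
def th {X : Type} (i : ℕ) (q : X × (ℕ → X)) : ℕ → X := fun j =>
  if j < i then q.2 j else if j = i then q.1 else q.2 (j - 1)

theorem th_sg {X : Type} (i k : ℕ) (q : X × (ℕ → X)) : th i q (sg i k) = q.2 k := by
  unfold th sg
  by_cases h : k < i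
  · simp [h]
  · have h1 : ¬ (k + 1 < i) := by omega
    have h2 : ¬ (k + 1 = i) := by omega
    simp [h, h1, h2]

theorem th_self {X : Type} (i : ℕ) (q : X × (ℕ → X)) : th i q i = q.1 := by
  simp [th]

theorem th_meas {X : Type} [MeasurableSpace X] (i : ℕ) : Measurable (th (X := X) i) := by
  refine measurable_pi_lambda _ fun j => ?_
  unfold th
  split_ifs
  · exact (measurable_pi_apply j).comp measurable_snd
  · exact measurable_fst
  · exact (measurable_pi_apply (j - 1)).comp measurable_snd

theorem map_th {X : Type} [MeasurableSpace X] (μ : Measure X) [IsProbabilityMeasure μ] (i : ℕ) :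
    (μ.prod (Measure.infinitePi (fun _ : ℕ => μ))).map (th i) =
      Measure.infinitePi (fun _ : ℕ => μ) := by
  refine Measure.eq_infinitePi _ ?_
  intro s t ht
  rw [Measure.map_apply (th_meas i) (MeasurableSet.pi s.countable_toSet fun j _ => ht j)]
  set s' : Finset ℕ := s.preimage (sg i) (sg_inj i).injOn with hs'
  have e : th i ⁻¹' (Set.pi (s : Set ℕ) t) =
      (if i ∈ s then t i else Set.univ) ×ˢ (Set.pi (s' : Set ℕ) fun k => t (sg i k)) := by
    ext q
    simp only [Set.mem_preimage, Set.mem_pi, Set.mem_prod, Finset.mem_coe, hs',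
      Finset.mem_preimage]
    constructor
    · intro h
      constructor
      · split_ifs with hi
        · have := h i hi
          rwa [th_self] at this
        · trivial
      · intro k hk
        have := h _ hk
        rwa [th_sg] at this
    · rintro ⟨h1, h2⟩ j hj
      by_cases hji : j = i
      · subst hji
        rw [if_pos hj] at h1
        rwa [th_self]
      · obtain ⟨k, rfl⟩ := (mem_range_sg i j).mpr hji
        rw [th_sg]
        exact h2 k hj
  rw [e, Measure.prod_prod, Measure.infinitePi_pi _ (fun k _ => ht _), hs',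
    Finset.prod_preimage' (sg i) s (sg_inj i).injOn (fun j => μ (t j))]
  rw [← Finset.prod_filter_mul_prod_filter_not s (fun j => j ∈ Set.range (sg i)), mul_comm]
  congr 1
  have e2 : (s.filter fun j => ¬ (j ∈ Set.range (sg i))) = s.filter (fun j => j = i) := by
    refine Finset.filter_congr fun j _ => ?_
    rw [mem_range_sg]
    tauto
  rw [e2, Finset.filter_eq']
  split_ifs
  · simp
  · simp

theorem sum_meas {X : Type} [MeasurableSpace X] {a : X → ℝ≥0∞} (ha : Measurable a)
    (s : Finset ℕ) : Measurable (fun F : ℕ → X => ∑ j ∈ s, a (F j)) :=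
  Finset.measurable_sum s fun j _ => ha.comp (measurable_pi_apply j)

theorem sum_meas2 {X : Type} [MeasurableSpace X] {a : X → ℝ≥0∞} (ha : Measurable a)
    (s : Finset ℕ) : Measurable (fun q : X × (ℕ → X) => ∑ j ∈ s, a (q.2 j)) :=
  (sum_meas ha s).comp measurable_snd

theorem key {X : Type} [MeasurableSpace X] (μ : Measure X) [IsProbabilityMeasure μ]
    (a : X → ℝ≥0∞) (H : ℝ≥0∞ → ℝ≥0∞ → ℝ≥0∞) (ha : Measurable a)
    (hH : Measurable (Function.uncurry H)) (m i : ℕ) (hi : i < m + 1) :
    ∫⁻ F : ℕ → X, H (a (F i)) (∑ j ∈ (Finset.range (m + 1)).erase i, a (F j))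
        ∂(Measure.infinitePi (fun _ : ℕ => μ)) =
      ∫⁻ w, ∫⁻ F : ℕ → X, H (a w) (∑ j ∈ Finset.range m, a (F j))
        ∂(Measure.infinitePi (fun _ : ℕ => μ)) ∂μ := by
  have hm1 : Measurable (fun F : ℕ → X =>
      H (a (F i)) (∑ j ∈ (Finset.range (m + 1)).erase i, a (F j))) := by
    exact hH.comp (Measurable.prodMk (ha.comp (measurable_pi_apply i))
      (sum_meas ha ((Finset.range (m + 1)).erase i)))
  have hm2 : Measurable (fun q : X × (ℕ → X) => H (a q.1) (∑ j ∈ Finset.range m, a (q.2 j))) := by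
    exact hH.comp (Measurable.prodMk (ha.comp measurable_fst) (sum_meas2 ha (Finset.range m)))
  conv_lhs => rw [← map_th μ i]
  rw [lintegral_map hm1 (th_meas i), ← lintegral_prod _ hm2.aemeasurable]
  refine lintegral_congr fun q => ?_
  rw [th_self]
  congr 1
  have e : (Finset.range (m + 1)).erase i = (Finset.range m).image (sg i) := by
    ext j
    simp only [Finset.mem_erase, Finset.mem_range, Finset.mem_image]
    constructor
    · rintro ⟨h1, h2⟩
      obtain ⟨k, rfl⟩ := (mem_range_sg i j).mpr h1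
      refine ⟨k, ?_, rfl⟩
      unfold sg at h2
      split_ifs at h2 <;> omega
    · rintro ⟨k, hk, rfl⟩
      unfold sg
      split_ifs <;> omega
  rw [e, Finset.sum_image fun x _ y _ h => sg_inj i h]
  refine Finset.sum_congr rfl fun k _ => ?_
  rw [th_sg]

theorem lint_poi (c : ℝ≥0) (f : ℕ → ℝ≥0∞) : ∫⁻ n, f n ∂(poissonMeasure c) =
    ∑' n : ℕ, ENNReal.ofReal (Real.exp (-c) * c ^ n / (n.factorial : ℝ)) * f n := by
  rw [poissonMeasure, lintegral_sum_measure]
  refine tsum_congr fun n => ?_
  rw [lintegral_smul_measure, lintegral_dirac, smul_eq_mul]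

theorem poi_shift (c : ℝ≥0) (K : ℕ → ℝ≥0∞) :
    ∫⁻ n, (n : ℝ≥0∞) * K (n - 1) ∂(poissonMeasure c) =
      (c : ℝ≥0∞) * ∫⁻ n, K n ∂(poissonMeasure c) := by
  rw [lint_poi, lint_poi, tsum_eq_zero_add' ENNReal.summable, ← ENNReal.tsum_mul_left]
  simp only [Nat.cast_zero, zero_mul, mul_zero, zero_add]
  refine tsum_congr fun n => ?_
  rw [Nat.add_sub_cancel, ← mul_assoc, ← mul_assoc]
  congr 1
  have h1 : ((n + 1 : ℕ) : ℝ≥0∞) = ENNReal.ofReal ((n : ℝ) + 1) := by
    rw [← ENNReal.ofReal_natCast]
    push_cast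
    rfl
  have h2 : (c : ℝ≥0∞) = ENNReal.ofReal (c : ℝ) := by
    rw [ENNReal.ofReal_coe_nnreal]
  rw [h1, h2, ← ENNReal.ofReal_mul (by positivity), ← ENNReal.ofReal_mul (by positivity)]
  congr 1
  rw [Nat.factorial_succ]
  have h3 : ((n.factorial : ℕ) : ℝ) ≠ 0 := by positivity
  have h4 : (n : ℝ) + 1 ≠ 0 := by positivity
  push_cast
  field_simp
  ring

theorem mk : S_SPLIT → S_MK := by
  intro hS c a H ha hH
  set μ := Pm c with hμ
  set P : Measure (ℕ → Om) := Measure.infinitePi (fun _ : ℕ => μ) with hP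
  have hmap : Measurable (fun ω : Om => (ω [], fun i : ℕ => sh i ω)) := by
    refine Measurable.prodMk (measurable_pi_apply []) ?_
    refine measurable_pi_lambda _ fun i => ?_
    exact measurable_pi_lambda _ fun l => measurable_pi_apply (i :: l)
  -- transfer
  have trans : ∀ f : ℕ × (ℕ → Om) → ℝ≥0∞, (∀ n, Measurable fun F => f (n, F)) →
      ∫⁻ ω, f (ω [], fun i : ℕ => sh i ω) ∂μ =
        ∫⁻ n, ∫⁻ F, f (n, F) ∂P ∂(poissonMeasure c) := by
    intro f hf
    have hfm : Measurable f := measurable_from_prod_countable_right hf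
    rw [← lintegral_prod _ hfm.aemeasurable, hP, ← hS c, lintegral_map hfm hmap]
  have hL := trans (fun q => ∑ i ∈ Finset.range q.1,
      H (a (q.2 i)) (∑ j ∈ (Finset.range q.1).erase i, a (q.2 j))) (by
    intro n
    refine Finset.measurable_sum (Finset.range n) fun i _ => ?_
    exact hH.comp (Measurable.prodMk (ha.comp (measurable_pi_apply i))
      (sum_meas ha ((Finset.range n).erase i))))
  have hR : ∀ w : Om, ∫⁻ ω, H (a w) (∑ j ∈ Finset.range (ω []), a (sh j ω)) ∂μ =
      ∫⁻ n, ∫⁻ F, H (a w) (∑ j ∈ Finset.range n, a (F j)) ∂P ∂(poissonMeasure c) := by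
    intro w
    refine trans (fun q => H (a w) (∑ j ∈ Finset.range q.1, a (q.2 j))) ?_
    intro n
    exact hH.comp (Measurable.prodMk measurable_const (sum_meas ha (Finset.range n)))
  set K : ℕ → ℝ≥0∞ := fun n => ∫⁻ w, ∫⁻ F, H (a w) (∑ j ∈ Finset.range n, a (F j)) ∂P ∂μ with hK
  have hLn : ∀ n : ℕ, ∫⁻ F : ℕ → Om, ∑ i ∈ Finset.range n,
      H (a (F i)) (∑ j ∈ (Finset.range n).erase i, a (F j)) ∂P = (n : ℝ≥0∞) * K (n - 1) := by
    intro n
    rw [lintegral_finsetSum]
    · rcases n with _ | m
      · simp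
      · have : ∀ i ∈ Finset.range (m + 1), ∫⁻ F : ℕ → Om,
            H (a (F i)) (∑ j ∈ (Finset.range (m + 1)).erase i, a (F j)) ∂P = K m := by
          intro i hi
          exact key μ a H ha hH m i (Finset.mem_range.mp hi)
        rw [Finset.sum_congr rfl this, Finset.sum_const, Finset.card_range, nsmul_eq_mul,
          Nat.add_sub_cancel]
    · intro i _
      exact hH.comp (Measurable.prodMk (ha.comp (measurable_pi_apply i))
        (sum_meas ha ((Finset.range n).erase i)))
  have hsw : ∫⁻ w, ∫⁻ n, ∫⁻ F, H (a w) (∑ j ∈ Finset.range n, a (F j)) ∂P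
      ∂(poissonMeasure c) ∂μ = ∫⁻ n, K n ∂(poissonMeasure c) := by
    rw [lintegral_lintegral_swap]
    refine Measurable.aemeasurable ?_
    refine measurable_from_prod_countable_left fun n => ?_
    have hm2 : Measurable (fun q : Om × (ℕ → Om) =>
        H (a q.1) (∑ j ∈ Finset.range n, a (q.2 j))) := by
      exact hH.comp (Measurable.prodMk (ha.comp measurable_fst) (sum_meas2 ha (Finset.range n)))
    exact hm2.lintegral_prod_right'
  refine Eq.trans hL ?_
  rw [lintegral_congr hR, hsw]
  simp only [hLn]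
  exact poi_shift c K

end Pool.Agent.W293.PM
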